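import Mathlib
/-! Bilinear expressions and anisotropy with a linear constraint. -/
namespace Pool.Agent.Helper24.DC
open Finset Polynomial

/-- bilinear expression with coefficients `B` -/
def bf {R : Type*} [CommRing R] {ι : Type*} [Fintype ι] (B : ι → ι → R) (u v : ι → R) : R :=
  ∑ j, ∑ k, B j k * u j * v k

/-- linear expression with coefficients `c` -/
def lf {R : Type*} [CommRing R] {ι : Type*} [Fintype ι] (c u : ι → R) : R := ∑ j, c j * u j

/-- the quadratic form `bf B u u` is anisotropic on the hyperplane `lf c u = 0` -/
def Anis {R : Type*} [CommRing R] {ι : Type*} [Fintype ι] (B : ι → ι → R) (c : ι → R) : Prop :=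
  ∀ u : ι → R, lf c u = 0 → bf B u u = 0 → u = 0

end Pool.Agent.Helper24.DC
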