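import Pool.Agent.Helper24.DC.Special
import Pool.Agent.Helper59.DC.Weights
import Pool.Agent.Helper73.DC.Defs
/-! CORE A: existence of a good configuration. -/
namespace Pool.Agent.Helper24.DC
open Finset Polynomial
open Pool.Agent.Helper59.DC (exists_primitive exists_weights)
universe u

theorem spw_s0_sum {L : Type*} [Field L] [CharZero L] {r : ℕ} (s : Fin r → L) :
    ∑ i, spw (s0 s) (fun i => C (s i)) i = C ((r : L) + 1) * X := by
  rw [spw_sum]
  unfold s0
  rw [← map_sum]
  have : (3 : L[X]) * (C (3⁻¹ : L) * (C (∑ i, s i) - C ((r : L) + 1) * X)) =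
      (C (∑ i, s i) - C ((r : L) + 1) * X) := by
    rw [← mul_assoc]
    have e : (3 : L[X]) * C (3⁻¹ : L) = 1 := by
      rw [show (3 : L[X]) = C (3 : L) from (map_ofNat C 3).symm, ← C_mul,
        mul_inv_cancel₀ (by norm_num), C_1]
    rw [e, one_mul]
  rw [this]; ring

section field
variable {L : Type u} [Field L] [CharZero L] {ι : Type} [Fintype ι] {r : ℕ}

/-- the map `L → L(X)` -/
noncomputable abbrev φ (L : Type u) [Field L] : L[X] →+* FractionRing L[X] :=
  algebraMap L[X] (FractionRing L[X])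

theorem φ_inj (L : Type u) [Field L] : Function.Injective (φ L) :=
  IsFractionRing.injective L[X] (FractionRing L[X])

/-- the special weights over `L(X)` -/
noncomputable def spf (s : Fin r → L) : Fin (r + 2) → FractionRing L[X] :=
  fun i => φ L (spw (s0 s) (fun i => C (s i)) i)

theorem special_field (hr : 1 ≤ r) (P T : ι → ι → L) (c : ι → L) (s : Fin r → L)
    (hσ : ∑ i, s i ≠ 0)
    (h1 : ∀ w : Fin r → ι → L, (∀ i, lf c (w i) = 0) → ∑ i, s i * bf P (w i) (w i) = 0 → w = 0)
    (h2 : ∀ u : ι → L, lf c u = 0 → ((r : L) + 2) * bf T u u - bf P u u = 0 → u = 0)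
    (w : Fin (r + 2) → ι → FractionRing L[X]) (hc : ∀ i, lf (fun j => φ L (C (c j))) (w i) = 0)
    (hs : ∀ j, ∑ i, spf s i * w i j = 0)
    (hQ : bigQ (fun j k => φ L (C (P j k))) (fun j k => φ L (C (T j k))) (spf s) (φ L X) w = 0) :
    w = 0 := by
  by_contra hw
  have hw' : (fun p : Fin (r + 2) × ι => w p.1 p.2) ≠ 0 := by
    intro h
    apply hw
    funext i j
    exact congrFun h (i, j)
  obtain ⟨a, u, ha, hu, p, hp⟩ := exists_primitive _ hw'
  have hu' : ∀ i, (fun j => φ L (u (i, j))) = a • w i := by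
    intro i; funext j
    exact (hu (i, j)).symm
  apply hp
  apply special_poly hr P T c s hσ h1 h2 (fun i j => u (i, j))
  · intro i
    apply φ_inj L
    rw [map_lf, hu', lf_smul, hc, mul_zero, map_zero]
  · intro j
    apply φ_inj L
    rw [map_sum, map_zero]
    have : ∀ i, φ L (spw (s0 s) (fun i => C (s i)) i * u (i, j)) = a * (spf s i * w i j) := by
      intro i
      rw [map_mul]
      have h3 : φ L (u (i, j)) = a * w i j := (hu (i, j)).symm
      rw [h3]
      unfold spf
      ring
    rw [sum_congr rfl fun i _ => this i, ← mul_sum, hs, mul_zero]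
  · apply φ_inj L
    rw [map_bigQ, map_zero]
    have h3 : (fun (i : Fin (r + 2)) (j : ι) => φ L (u (i, j))) = a • w := by
      funext i j
      exact (hu (i, j)).symm
    rw [h3]
    have h4 : bigQ (fun j k => φ L (C (P j k))) (fun j k => φ L (C (T j k))) (spf s) (φ L X) (a • w) =
        a ^ 2 * bigQ (fun j k => φ L (C (P j k))) (fun j k => φ L (C (T j k))) (spf s) (φ L X) w := by
      unfold bigQ
      have e1 : ∑ i, (a • w) i = a • ∑ i, w i := by
        rw [smul_sum]; rfl
      rw [e1]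
      simp only [Pi.smul_apply, bf_smul_left, bf_smul_right]
      have e2 : ∀ (f : Fin (r + 2) → FractionRing L[X]), ∑ i, (a * (a * f i)) = a ^ 2 * ∑ i, f i := by
        intro f; rw [mul_sum]; refine sum_congr rfl fun i _ => ?_; ring
      have e3 : ∀ (f g : Fin (r + 2) → FractionRing L[X]),
          ∑ i, g i * (a * (a * f i)) = a ^ 2 * ∑ i, g i * f i := by
        intro f g; rw [mul_sum]; refine sum_congr rfl fun i _ => ?_; ring
      rw [e3, e2]
      ring
    have h5 := h4
    rw [hQ, mul_zero] at h5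
    exact h5

end field

open Pool.Agent.Helper73.DC

/-- matrix of `Phi` -/
def mPhi {F : Type*} [Field F] {N : ℕ} (t : Fin N → F) (X : F) : Fin N → Fin N → F :=
  fun j k => (if j = k then 2 * t j - X else 0) + X
/-- matrix of `A` -/
def mA {F : Type*} [Field F] {N : ℕ} (t : Fin N → F) : Fin N → Fin N → F :=
  fun j k => if j = k then t j else 0
/-- matrix of `Theta` -/
def mTh {F : Type*} [Field F] {N : ℕ} (t : Fin N → F) (X : F) : Fin N → Fin N → F :=
  fun j k => (if j = k then t j - X / (N : F) else 0) + X / (N : F)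

section forms
variable {F : Type*} [Field F] {N : ℕ}

theorem bf_diag (a : Fin N → F) (b : F) (u : Fin N → F) :
    bf (fun j k => (if j = k then a j else 0) + b) u u = ∑ j, a j * u j ^ 2 + b * (∑ j, u j) ^ 2 := by
  unfold bf
  have h1 : ∀ j, ∑ k, ((if j = k then a j else 0) + b) * u j * u k = a j * u j ^ 2 + b * u j * ∑ k, u k := by
    intro j
    have h2 : ∀ k, ((if j = k then a j else 0) + b) * u j * u k =
        (if j = k then a j * u j * u k else 0) + b * u j * u k := by
      intro k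
      split_ifs <;> ring
    rw [sum_congr rfl fun k _ => h2 k, sum_add_distrib, sum_ite_eq, ← mul_sum]
    simp only [mem_univ, if_true]
    ring
  rw [sum_congr rfl fun j _ => h1 j, sum_add_distrib, ← sum_mul]
  congr 1
  rw [← mul_sum]
  ring

theorem bf_mPhi (t : Fin N → F) (X : F) (u : Fin N → F) : bf (mPhi t X) u u = qPhi t X u := by
  have h := bf_diag (fun j => 2 * t j - X) X u
  have e : bf (mPhi t X) u u = bf (fun j k => (if j = k then (fun j => 2 * t j - X) j else 0) + X) u u :=
    rfl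
  rw [e, h]
  unfold qPhi qA qE
  have h2 : ∑ j, (2 * t j - X) * u j ^ 2 = 2 * ∑ j, t j * u j ^ 2 - X * ∑ j, u j ^ 2 := by
    rw [mul_sum, mul_sum, ← sum_sub_distrib]
    refine sum_congr rfl fun j _ => ?_
    ring
  rw [h2]; ring

theorem bf_mA (t : Fin N → F) (u : Fin N → F) : bf (mA t) u u = qA t u := by
  have h := bf_diag t 0 u
  have e : bf (mA t) u u = bf (fun j k => (if j = k then t j else 0) + 0) u u := by
    unfold mA
    simp only [add_zero]
  rw [e, h]
  unfold qA
  ring

theorem bf_mTh (t : Fin N → F) (X : F) (u : Fin N → F) : bf (mTh t X) u u = qTh t X u := by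
  have h := bf_diag (fun j => t j - X / (N : F)) (X / (N : F)) u
  have e : bf (mTh t X) u u = bf (fun j k => (if j = k then (fun j => t j - X / (N : F)) j else 0) +
    X / (N : F)) u u := rfl
  rw [e, h]
  unfold qTh qA qE
  have h2 : ∑ j, (t j - X / (N : F)) * u j ^ 2 = ∑ j, t j * u j ^ 2 - X / (N : F) * ∑ j, u j ^ 2 := by
    rw [mul_sum, ← sum_sub_distrib]
    refine sum_congr rfl fun j _ => ?_
    ring
  rw [h2]; ring

theorem bigQ_eq (t s : Fin N → F) (X Y : F) (w : Fin N → Fin N → F) :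
    bigQ (mPhi t X) (mTh t X) s Y w = qQ t s X Y w := by
  unfold bigQ qQ
  have e : ∑ i, w i = fun j => ∑ i, w i j := by funext j; rw [Finset.sum_apply]
  rw [e]
  simp only [bf_mPhi, bf_mTh]

end forms

/-- one-dimensional forms -/
theorem bf_one {F : Type*} [Field F] (a : F) (u : Fin 1 → F) : bf (fun _ _ => a) u u = a * u 0 ^ 2 := by
  unfold bf; simp; ring

theorem anis_one (K : Type u) [Field K] : Anis (fun _ _ : Fin 1 => (1 : K)) (fun _ => 0) := by
  intro u _ h
  rw [bf_one, one_mul] at h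
  funext i
  have h2 : u 0 = 0 := by
    exact pow_eq_zero_iff (n := 2) (by norm_num) |>.1 h
  rw [Subsingleton.elim i 0, h2]; rfl

/-- level one: `Phi` and `A` over `L(X)` for the special weights -/
theorem level_one {L : Type u} [Field L] [CharZero L] {r : ℕ} (hr : 1 ≤ r) (t : Fin r → L)
    (ht : ∀ w : Fin r → L, ∑ i, t i * w i ^ 2 = 0 → w = 0) :
    (∀ u : Fin (r + 2) → FractionRing L[X], ∑ j, spf t j * u j = 0 → qPhi (spf t) (φ L X) u = 0 → u = 0) ∧
    (∀ u : Fin (r + 2) → FractionRing L[X], ∑ j, spf t j * u j = 0 → qA (spf t) u = 0 → u = 0) := by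
  have hσ : ∑ i, t i ≠ 0 := by
    intro h
    have h2 := ht (fun _ => 1) (by simpa using h)
    have h3 := congrFun h2 ⟨0, hr⟩
    exact one_ne_zero h3
  have h1 : ∀ w : Fin r → Fin 1 → L, (∀ i, lf (fun _ => (0 : L)) (w i) = 0) →
      ∑ i, t i * bf (fun _ _ => (1 : L)) (w i) (w i) = 0 → w = 0 := by
    intro w _ h
    simp only [bf_one, one_mul] at h
    have h2 := ht (fun i => w i 0) h
    funext i j
    rw [Subsingleton.elim j 0]
    exact congrFun h2 i
  have hlf : ∀ u : Fin 1 → FractionRing L[X], lf (fun _ => φ L (C (0 : L))) u = 0 := by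
    intro u; unfold lf; simp
  have hQ : ∀ (b : L) (u : Fin (r + 2) → FractionRing L[X]),
      bigQ (fun _ _ : Fin 1 => φ L (C (1 : L))) (fun _ _ => φ L (C b)) (spf t) (φ L X)
        (fun i _ => u i) = 2 * qA (spf t) u - 2 * φ L (C b) * φ L X * qE u := by
    intro b u
    unfold bigQ qA qE
    simp only [bf_one, map_one, one_mul, Finset.sum_apply]
    rw [← mul_sum]
    ring
  constructor
  · intro u hu hq
    have h := special_field (ι := Fin 1) hr (fun _ _ => (1 : L)) (fun _ _ => (2⁻¹ : L)) (fun _ => 0) t hσ h1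
      (by
        intro v _ hv
        rw [bf_one, bf_one] at hv
        have h3 : ((r : L)) * v 0 ^ 2 = 0 := by
          have e : (2 : L) * 2⁻¹ = 1 := mul_inv_cancel₀ (by norm_num)
          linear_combination 2 * hv - (((r : L) + 2) * v 0 ^ 2) * e
        have hr0 : (r : L) ≠ 0 := Nat.cast_ne_zero.2 (by omega)
        have h4 : v 0 ^ 2 = 0 := (mul_eq_zero.1 h3).resolve_left hr0
        funext i
        rw [Subsingleton.elim i 0]
        exact pow_eq_zero_iff (n := 2) (by norm_num) |>.1 h4)
      (fun i _ => u i) (fun i => hlf _) (fun j => hu)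
      (by
        rw [hQ]
        have e : (2 : FractionRing L[X]) * φ L (C (2⁻¹ : L)) = 1 := by
          have e2 : (2 : L[X]) * C (2⁻¹ : L) = 1 := by
            rw [show (2 : L[X]) = C (2 : L) from (map_ofNat C 2).symm, ← C_mul,
              mul_inv_cancel₀ (by norm_num), C_1]
          have e3 := congrArg (φ L) e2
          rw [map_mul, map_one, map_ofNat] at e3
          exact e3
        rw [e, one_mul]
        exact hq)
    funext i
    exact congrFun (congrFun h i) 0
  · intro u hu hq
    have h := special_field (ι := Fin 1) hr (fun _ _ => (1 : L)) (fun _ _ => (0 : L)) (fun _ => 0) t hσ h1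
      (by
        intro v _ hv
        rw [bf_one, bf_one] at hv
        have h4 : v 0 ^ 2 = 0 := by linear_combination -hv
        funext i
        rw [Subsingleton.elim i 0]
        exact pow_eq_zero_iff (n := 2) (by norm_num) |>.1 h4)
      (fun i _ => u i) (fun i => hlf _) (fun j => hu)
      (by rw [hQ, hq]; simp)
    funext i
    exact congrFun (congrFun h i) 0

theorem spf_sum {L : Type u} [Field L] [CharZero L] {r : ℕ} (s : Fin r → L) :
    ∑ i, spf s i = (((r + 2 : ℕ) : FractionRing L[X]) - 1) * φ L X := by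
  unfold spf
  rw [← map_sum, spw_s0_sum, map_mul]
  congr 1
  rw [map_add, map_add, map_one, map_one, map_natCast, map_natCast]
  push_cast; ring

/-- CORE A -/
theorem exists_good (K : Type u) [Field K] [CharZero K] (N : ℕ) (hN : 3 ≤ N) :
    ∃ (F : Type u) (_ : Field F) (_ : Algebra K F) (t s : Fin N → F) (X Y : F),
      Good F N t s X Y := by
  obtain ⟨r, rfl⟩ : ∃ r, N = r + 2 := ⟨N - 2, by omega⟩
  have hr : 1 ≤ r := by omega
  -- level 0
  obtain ⟨L₀, hL₀, hA₀, t₀, h₀⟩ := exists_weights K r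
  have : CharZero L₀ := charZero_of_injective_algebraMap (algebraMap K L₀).injective
  have ht₀ : ∀ w : Fin r → L₀, ∑ i, t₀ i * w i ^ 2 = 0 → w = 0 := by
    intro w hw
    have h := h₀ (Fin 1) _ _ (anis_one K) (fun i _ => w i) (by intro i; unfold lf; simp) (by
      simp only [map_one, bf_one, one_mul]
      exact hw)
    funext i
    exact congrFun (congrFun h i) 0
  -- level 1
  obtain ⟨hPhi1, hA1⟩ := level_one hr t₀ ht₀
  set L₁ := FractionRing L₀[X] with hL₁
  set t₁ : Fin (r + 2) → L₁ := spf t₀ with ht₁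
  set X₁ : L₁ := φ L₀ X with hX₁
  have : CharZero L₁ := charZero_of_injective_algebraMap (R := L₀) (algebraMap L₀ L₁).injective
  -- level 2
  obtain ⟨L₂, hL₂, hA₂, s₂, h₂⟩ := exists_weights L₁ r
  have : CharZero L₂ := charZero_of_injective_algebraMap (R := L₁) (algebraMap L₁ L₂).injective
  set ψ := algebraMap L₁ L₂ with hψ
  have hanP : Anis (mPhi t₁ X₁) t₁ := by
    intro u hu hq
    rw [bf_mPhi] at hq
    exact hPhi1 u hu hq
  have hanA : Anis (mA t₁) t₁ := by
    intro u hu hq
    rw [bf_mA] at hq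
    exact hA1 u hu hq
  have hP2 := h₂ (Fin (r + 2)) _ _ hanP
  have hA2 := h₂ (Fin (r + 2)) _ _ hanA
  have hone2 := h₂ (Fin 1) _ _ (anis_one L₁)
  have hσ₂ : ∑ i, s₂ i ≠ 0 := by
    intro h
    have h3 := hone2 (fun _ _ => 1) (by intro i; unfold lf; simp) (by
      simp only [map_one, bf_one, one_mul, one_pow, mul_one]
      exact h)
    have h4 := congrFun (congrFun h3 ⟨0, hr⟩) 0
    exact one_ne_zero h4
  set t₂ : Fin (r + 2) → L₂ := fun j => ψ (t₁ j) with ht₂
  set X₂ : L₂ := ψ X₁ with hX₂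
  have emP : (fun j k => ψ (mPhi t₁ X₁ j k)) = mPhi t₂ X₂ := by
    funext j k
    unfold mPhi
    split_ifs <;> simp [ht₂, hX₂, map_ofNat]
  have emA : (fun j k => ψ (mA t₁ j k)) = mA t₂ := by
    funext j k
    unfold mA
    split_ifs <;> simp [ht₂]
  rw [emP] at hP2
  rw [emA] at hA2
  have hAu : ∀ u : Fin (r + 2) → L₂, lf t₂ u = 0 → qA t₂ u = 0 → u = 0 := by
    intro u hu hq
    have h3 := hA2 (fun i => if i = ⟨0, hr⟩ then u else 0) (by
      intro i
      by_cases hi : i = ⟨0, hr⟩
      · simp only [hi, if_true]; exact hu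
      · simp only [hi, if_false]; unfold lf; simp) (by
      rw [sum_eq_single ⟨0, hr⟩]
      · simp only [if_true]
        rw [bf_mA, hq, mul_zero]
      · intro i _ hi
        simp only [hi, if_false]
        unfold bf; simp
      · intro h; exact absurd (mem_univ _) h)
    have h4 := congrFun h3 ⟨0, hr⟩
    simp only [if_true] at h4
    exact h4
  -- level 3
  refine ⟨FractionRing L₂[X], inferInstance,
    (((φ L₂).comp (C : L₂ →+* L₂[X])).comp (ψ.comp ((algebraMap L₀ L₁).comp (algebraMap K L₀)))).toAlgebra,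
    fun j => φ L₂ (C (t₂ j)), spf s₂, φ L₂ (C X₂), φ L₂ X, ?_⟩
  have hr2 : ((r + 2 : ℕ) : L₂) ≠ 0 := Nat.cast_ne_zero.2 (by omega)
  refine ⟨?_, ?_, ?_, spf_sum s₂, ?_⟩
  · intro h
    have h3 := φ_inj L₂ (h.trans (map_zero (φ L₂)).symm)
    rw [C_eq_zero] at h3
    have h4 := ψ.injective (h3.trans (map_zero ψ).symm)
    have h5 := φ_inj L₀ (h4.trans (map_zero (φ L₀)).symm)
    exact X_ne_zero h5
  · intro h
    have h3 := φ_inj L₂ (h.trans (map_zero (φ L₂)).symm)
    exact X_ne_zero h3
  · have h3 : ∑ j, t₁ j = (((r + 2 : ℕ) : L₁) - 1) * X₁ := spf_sum t₀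
    have h4 := congrArg (fun a => φ L₂ (C (ψ a))) h3
    simp only [map_sum, map_mul, map_sub, map_one] at h4
    have h5 : φ L₂ (C (ψ (((r + 2 : ℕ) : L₁)))) = ((r + 2 : ℕ) : FractionRing L₂[X]) := by
      have h6 : ψ (((r + 2 : ℕ) : L₁)) = ((r + 2 : ℕ) : L₂) := map_natCast ψ (r + 2)
      have h7 : (C (((r + 2 : ℕ) : L₂)) : L₂[X]) = ((r + 2 : ℕ) : L₂[X]) := map_natCast C (r + 2)
      rw [h6, h7]
      exact map_natCast (φ L₂) (r + 2)
    rw [h5] at h4
    exact h4
  · intro w hw1 hw2 hq
    apply special_field (ι := Fin (r + 2)) hr (mPhi t₂ X₂) (mTh t₂ X₂) t₂ s₂ hσ₂ hP2 ?_ w hw1 hw2 ?_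
    · intro u hu hu2
      apply hAu u hu
      rw [bf_mTh, bf_mPhi] at hu2
      have h3 : (r : L₂) * qA t₂ u = 0 := by
        unfold qTh qPhi at hu2
        have e : (((r + 2 : ℕ) : L₂)) * (X₂ / ((r + 2 : ℕ) : L₂)) = X₂ := mul_div_cancel₀ _ hr2
        have e' : ((r : L₂) + 2) * (X₂ / ((r + 2 : ℕ) : L₂)) = X₂ := by
          have e0 : ((r : L₂) + 2) = ((r + 2 : ℕ) : L₂) := by push_cast; ring
          rw [e0, e]
        linear_combination hu2 + qE u * e'
      exact (mul_eq_zero.1 h3).resolve_left (Nat.cast_ne_zero.2 (by omega))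
    · rw [← bigQ_eq] at hq
      have e1 : (fun j k => φ L₂ (C (mPhi t₂ X₂ j k))) = mPhi (fun j => φ L₂ (C (t₂ j))) (φ L₂ (C X₂)) := by
        funext j k
        unfold mPhi
        split_ifs <;> simp [map_ofNat]
      have e2 : (fun j k => φ L₂ (C (mTh t₂ X₂ j k))) = mTh (fun j => φ L₂ (C (t₂ j))) (φ L₂ (C X₂)) := by
        have e3 : φ L₂ (C (X₂ / ((r + 2 : ℕ) : L₂))) = φ L₂ (C X₂) / ((r + 2 : ℕ) : FractionRing L₂[X]) := by
          have hne : ((r + 2 : ℕ) : FractionRing L₂[X]) ≠ 0 := by
            intro h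
            have h3 : φ L₂ (C ((r + 2 : ℕ) : L₂)) = 0 := by
              rw [map_natCast, map_natCast]; exact h
            have h4 := φ_inj L₂ (h3.trans (map_zero (φ L₂)).symm)
            rw [C_eq_zero] at h4
            exact hr2 h4
          rw [eq_div_iff hne]
          have h3 : φ L₂ (C ((r + 2 : ℕ) : L₂)) = ((r + 2 : ℕ) : FractionRing L₂[X]) := by
            rw [map_natCast, map_natCast]
          rw [← h3, ← map_mul, ← C_mul, div_mul_cancel₀ _ hr2]
        funext j k
        unfold mTh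
        split_ifs
        · rw [C_add, map_add, C_sub, map_sub, e3]
        · rw [zero_add, zero_add, e3]
      rw [e1, e2]
      exact hq

end Pool.Agent.Helper24.DC
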