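import Pool.Agent.Helper24.DC.Defs
/-! The descent with the special weights. -/
namespace Pool.Agent.Helper24.DC
open Finset Polynomial

section basic
variable {R : Type*} [CommRing R] {ι : Type*} [Fintype ι]

theorem bf_add_left (B : ι → ι → R) (u u' v : ι → R) : bf B (u + u') v = bf B u v + bf B u' v := by
  unfold bf
  rw [← sum_add_distrib]
  refine sum_congr rfl fun j _ => ?_
  rw [← sum_add_distrib]
  refine sum_congr rfl fun k _ => ?_
  simp only [Pi.add_apply]; ring

theorem bf_add_right (B : ι → ι → R) (u v v' : ι → R) : bf B u (v + v') = bf B u v + bf B u v' := by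
  unfold bf
  rw [← sum_add_distrib]
  refine sum_congr rfl fun j _ => ?_
  rw [← sum_add_distrib]
  refine sum_congr rfl fun k _ => ?_
  simp only [Pi.add_apply]; ring

theorem bf_smul_left (B : ι → ι → R) (a : R) (u v : ι → R) : bf B (a • u) v = a * bf B u v := by
  unfold bf
  rw [mul_sum]
  refine sum_congr rfl fun j _ => ?_
  rw [mul_sum]
  refine sum_congr rfl fun k _ => ?_
  simp only [Pi.smul_apply, smul_eq_mul]; ring

theorem bf_smul_right (B : ι → ι → R) (a : R) (u v : ι → R) : bf B u (a • v) = a * bf B u v := by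
  unfold bf
  rw [mul_sum]
  refine sum_congr rfl fun j _ => ?_
  rw [mul_sum]
  refine sum_congr rfl fun k _ => ?_
  simp only [Pi.smul_apply, smul_eq_mul]; ring

theorem bf_sum_right (B : ι → ι → R) {κ : Type*} (S : Finset κ) (u : ι → R) (v : κ → ι → R) :
    bf B u (∑ i ∈ S, v i) = ∑ i ∈ S, bf B u (v i) := by
  classical
  induction S using Finset.induction_on with
  | empty => simp [bf]
  | insert a S ha ih => rw [sum_insert ha, sum_insert ha, bf_add_right, ih]

theorem bf_sum_left (B : ι → ι → R) {κ : Type*} (S : Finset κ) (u : κ → ι → R) (v : ι → R) :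
    bf B (∑ i ∈ S, u i) v = ∑ i ∈ S, bf B (u i) v := by
  classical
  induction S using Finset.induction_on with
  | empty => simp [bf]
  | insert a S ha ih => rw [sum_insert ha, sum_insert ha, bf_add_left, ih]

theorem lf_add (c u v : ι → R) : lf c (u + v) = lf c u + lf c v := by
  unfold lf; rw [← sum_add_distrib]; refine sum_congr rfl fun j _ => ?_; simp only [Pi.add_apply]; ring

theorem lf_sub (c u v : ι → R) : lf c (u - v) = lf c u - lf c v := by
  unfold lf; rw [← sum_sub_distrib]; refine sum_congr rfl fun j _ => ?_; simp only [Pi.sub_apply]; ring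

theorem lf_smul (a : R) (c u : ι → R) : lf c (a • u) = a * lf c u := by
  unfold lf; rw [mul_sum]; refine sum_congr rfl fun j _ => ?_
  simp only [Pi.smul_apply, smul_eq_mul]; ring

theorem map_bf {S : Type*} [CommRing S] (f : R →+* S) (B : ι → ι → R) (u v : ι → R) :
    f (bf B u v) = bf (fun j k => f (B j k)) (fun j => f (u j)) (fun j => f (v j)) := by
  unfold bf
  rw [map_sum]
  refine sum_congr rfl fun j _ => ?_
  rw [map_sum]
  refine sum_congr rfl fun k _ => ?_
  rw [map_mul, map_mul]

theorem map_lf {S : Type*} [CommRing S] (f : R →+* S) (c u : ι → R) :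
    f (lf c u) = lf (fun j => f (c j)) (fun j => f (u j)) := by
  unfold lf
  rw [map_sum]
  refine sum_congr rfl fun j _ => ?_
  rw [map_mul]

end basic

/-- the two special weights (in front) and the others -/
def spw {R : Type*} [CommRing R] {r : ℕ} (s₀ : R) (s : Fin r → R) : Fin (r + 2) → R :=
  Fin.cons s₀ (Fin.cons (-4 * s₀) s)

/-- the expression `2 ∑ s_i Phi(w_i) - 2 Y (∑ Theta(w_i) - Theta(∑ w_i))` -/
def bigQ {R : Type*} [CommRing R] {ι : Type*} [Fintype ι] {n : ℕ} (P T : ι → ι → R) (s : Fin n → R)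
    (Y : R) (w : Fin n → ι → R) : R :=
  2 * ∑ i, s i * bf P (w i) (w i) -
    2 * Y * (∑ i, bf T (w i) (w i) - bf T (∑ i, w i) (∑ i, w i))

theorem map_bigQ {R S : Type*} [CommRing R] [CommRing S] (f : R →+* S) {ι : Type*} [Fintype ι] {n : ℕ}
    (P T : ι → ι → R) (s : Fin n → R) (Y : R) (w : Fin n → ι → R) :
    f (bigQ P T s Y w) = bigQ (fun j k => f (P j k)) (fun j k => f (T j k)) (fun i => f (s i)) (f Y)
      (fun i j => f (w i j)) := by
  unfold bigQ
  rw [map_sub, map_mul, map_mul, map_mul, map_sub, map_sum, map_sum, map_bf, map_ofNat]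
  congr 1
  · congr 1
    refine sum_congr rfl fun i _ => ?_
    rw [map_mul, map_bf]
  · congr 2
    · refine sum_congr rfl fun i _ => ?_
      rw [map_bf]
    · congr 1 <;>
      · funext j
        simp only [Finset.sum_apply, map_sum]

/-- the expansion of the weighted sum around `μ = 2 w_1 - w_0` -/
theorem sum_expand {R : Type*} [CommRing R] {ι : Type*} [Fintype ι] {r : ℕ} (P : ι → ι → R)
    (s₀ : R) (s : Fin r → R) (Z : R) (hs : ∑ i, spw s₀ s i = Z) (w : Fin (r + 2) → ι → R)
    (hw : ∀ j, ∑ i, spw s₀ s i * w i j = 0) (μ : ι → R) (hμ : μ = (2 : R) • w 1 - w 0) :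
    ∑ i, spw s₀ s i * bf P (w i) (w i) =
      ∑ i : Fin r, s i * bf P (w i.succ.succ - μ) (w i.succ.succ - μ) - Z * bf P μ μ := by
  have h1 : ∑ i, spw s₀ s i • w i = 0 := by
    funext j
    simp only [Finset.sum_apply, Pi.smul_apply, smul_eq_mul, Pi.zero_apply]
    exact hw j
  -- polar identity
  have h2 : ∑ i, spw s₀ s i * bf P (w i - μ) (w i - μ) =
      ∑ i, spw s₀ s i * bf P (w i) (w i) + Z * bf P μ μ := by
    have h3 : ∀ i, spw s₀ s i * bf P (w i - μ) (w i - μ) =
        spw s₀ s i * bf P (w i) (w i) - bf P (spw s₀ s i • w i) μ - bf P μ (spw s₀ s i • w i) +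
          spw s₀ s i * bf P μ μ := by
      intro i
      have e : w i - μ = w i + (-1 : R) • μ := by
        funext j; simp [sub_eq_add_neg]
      rw [e, bf_add_left, bf_add_right, bf_add_right, bf_smul_left, bf_smul_right, bf_smul_left,
        bf_smul_right, bf_smul_left, bf_smul_right]
      ring
    rw [sum_congr rfl fun i _ => h3 i, sum_add_distrib, sum_sub_distrib, sum_sub_distrib,
      ← bf_sum_left, ← bf_sum_right, h1, ← sum_mul, hs]
    have e1 : bf P (0 : ι → R) μ = 0 := by simp [bf]
    have e2 : bf P μ (0 : ι → R) = 0 := by simp [bf]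
    rw [e1, e2]
    ring
  have h4 : ∑ i, spw s₀ s i * bf P (w i - μ) (w i - μ) =
      ∑ i : Fin r, s i * bf P (w i.succ.succ - μ) (w i.succ.succ - μ) := by
    rw [Fin.sum_univ_succ, Fin.sum_univ_succ]
    have e0 : w 0 - μ = (2 : R) • (w 1 - μ) := by
      rw [hμ]; funext j
      simp only [Pi.sub_apply, Pi.smul_apply, smul_eq_mul]; ring
    have e3 : spw s₀ s 0 = s₀ := rfl
    have e4 : spw s₀ s (Fin.succ 0) = -4 * s₀ := rfl
    have e5 : ∀ i : Fin r, spw s₀ s i.succ.succ = s i := fun i => rfl
    have e6 : w (Fin.succ 0) = w 1 := rfl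
    rw [e3, e4, e6, e0, bf_smul_left, bf_smul_right]
    simp only [e5]
    ring
  linear_combination h4 - h2


theorem spw_sum {R : Type*} [CommRing R] {r : ℕ} (s₀ : R) (s : Fin r → R) :
    ∑ i, spw s₀ s i = ∑ i, s i - 3 * s₀ := by
  rw [Fin.sum_univ_succ, Fin.sum_univ_succ]
  have e3 : spw s₀ s 0 = s₀ := rfl
  have e4 : spw s₀ s (Fin.succ 0) = -4 * s₀ := rfl
  have e5 : ∀ i : Fin r, spw s₀ s i.succ.succ = s i := fun i => rfl
  rw [e3, e4]
  simp only [e5]
  ring

/-- the special weight -/
noncomputable def s0 {L : Type*} [Field L] {r : ℕ} (s : Fin r → L) : L[X] :=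
  C (3⁻¹ : L) * (C (∑ i, s i) - C ((r : L) + 1) * X)

theorem coeff_zero_s0 {L : Type*} [Field L] {r : ℕ} (s : Fin r → L) :
    (s0 s).coeff 0 = 3⁻¹ * ∑ i, s i := by
  unfold s0
  rw [coeff_C_mul, coeff_sub, coeff_C_zero, coeff_C_mul, coeff_X_zero, mul_zero, sub_zero]

section poly
variable {L : Type*} [Field L] [CharZero L] {ι : Type*} [Fintype ι] {r : ℕ}

/-- the polynomial version: no vector which is primitive at `X = 0` -/
theorem special_poly (hr : 1 ≤ r) (P T : ι → ι → L) (c : ι → L) (s : Fin r → L)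
    (hσ : ∑ i, s i ≠ 0)
    (h1 : ∀ w : Fin r → ι → L, (∀ i, lf c (w i) = 0) → ∑ i, s i * bf P (w i) (w i) = 0 → w = 0)
    (h2 : ∀ u : ι → L, lf c u = 0 → ((r : L) + 2) * bf T u u - bf P u u = 0 → u = 0)
    (w : Fin (r + 2) → ι → L[X]) (hc : ∀ i, lf (fun j => C (c j)) (w i) = 0)
    (hs : ∀ j, ∑ i, spw (s0 s) (fun i => C (s i)) i * w i j = 0)
    (hQ : bigQ (fun j k => C (P j k)) (fun j k => C (T j k)) (spw (s0 s) (fun i => C (s i))) X w = 0) :
    ∀ i j, (w i j).coeff 0 = 0 := by
  set S : Fin (r + 2) → L[X] := spw (s0 s) (fun i => C (s i)) with hS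
  set μ : ι → L[X] := (2 : L[X]) • w 1 - w 0 with hμ
  have hZ : ∑ i, S i = C ((r : L) + 1) * X := by
    rw [hS, spw_sum]
    unfold s0
    rw [← map_sum]
    have : (3 : L[X]) * (C (3⁻¹ : L) * (C (∑ i, s i) - C ((r : L) + 1) * X)) =
        (C (∑ i, s i) - C ((r : L) + 1) * X) := by
      rw [← mul_assoc]
      have e : (3 : L[X]) * C (3⁻¹ : L) = 1 := by
        rw [show (3 : L[X]) = C (3 : L) from (map_ofNat C 3).symm, ← C_mul, mul_inv_cancel₀ (by norm_num), C_1]
      rw [e, one_mul]
    rw [this]; ring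
  have hexp := sum_expand (fun j k => C (P j k)) (s0 s) (fun i => C (s i)) _ hZ w hs μ hμ
  -- constraint for mu
  have hμc : lf (fun j => C (c j)) μ = 0 := by
    rw [hμ, lf_sub, lf_smul, hc, hc]; ring
  -- evaluation at X = 0
  set ev : L[X] →+* L := constantCoeff with hev
  have hevC : ∀ a : L, ev (C a) = a := fun a => by simp [hev]
  have hevX : ev X = 0 := by simp [hev]
  have hev0 : ∀ p : L[X], ev p = p.coeff 0 := fun p => rfl
  -- step 1 : the middle components
  set m : ι → L := fun j => ev (μ j) with hm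
  have hmid : ∀ i : Fin r, ∀ j, ev (w i.succ.succ j) = m j := by
    have hq : ev (∑ i : Fin r, C (s i) * bf (fun j k => C (P j k)) (w i.succ.succ - μ)
        (w i.succ.succ - μ)) = 0 := by
      have h3 : ev (bigQ (fun j k => C (P j k)) (fun j k => C (T j k)) S X w) = 0 := by
        rw [hQ, map_zero]
      unfold bigQ at h3
      rw [map_sub, map_mul, map_mul, map_mul, hevX, hexp, map_sub, map_mul, map_mul, hevX] at h3
      simp only [mul_zero, zero_mul, sub_zero] at h3
      rcases mul_eq_zero.1 h3 with h4 | h4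
      · exfalso
        rw [map_ofNat] at h4
        norm_num at h4
      · exact h4
    have h4 := h1 (fun i j => ev (w i.succ.succ j) - m j) (by
      intro i
      have h5 := congrArg ev (hc i.succ.succ)
      rw [map_lf, map_zero] at h5
      have h6 := congrArg ev hμc
      rw [map_lf, map_zero] at h6
      simp only [hevC] at h5 h6
      have h7 : (fun j => ev (w i.succ.succ j) - m j) =
          (fun j => ev (w i.succ.succ j)) - m := rfl
      rw [h7, lf_sub, h5]
      show 0 - lf c (fun j => ev (μ j)) = 0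
      rw [h6, sub_zero]) (by
      rw [map_sum] at hq
      rw [← hq]
      refine sum_congr rfl fun i _ => ?_
      rw [map_mul, hevC, map_bf]
      simp only [hevC, Pi.sub_apply, map_sub]
      rfl)
    intro i j
    have h5 := congrFun (congrFun h4 i) j
    simp only [Pi.zero_apply] at h5
    exact sub_eq_zero.1 h5
  -- step 1' : components 0 and 1
  have h01 : ∀ j, ev (w 0 j) = m j ∧ ev (w 1 j) = m j := by
    intro j
    have h3 := congrArg ev (hs j)
    rw [Fin.sum_univ_succ, Fin.sum_univ_succ] at h3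
    have e3 : S 0 = s0 s := rfl
    have e4 : S (Fin.succ 0) = -4 * s0 s := rfl
    have e5 : ∀ i : Fin r, S i.succ.succ = C (s i) := fun i => rfl
    have e6 : w (Fin.succ 0) = w 1 := rfl
    rw [e3, e4, e6] at h3
    simp only [e5] at h3
    rw [map_add, map_add, map_sum, map_mul, map_mul, map_mul, map_zero] at h3
    have h5 : ∀ i : Fin r, ev (C (s i) * w i.succ.succ j) = s i * m j := by
      intro i; rw [map_mul, hevC, hmid]
    rw [sum_congr rfl fun i _ => h5 i, ← sum_mul] at h3
    have h6 : ev (s0 s) = 3⁻¹ * ∑ i, s i := coeff_zero_s0 s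
    have h7 : ev (-4 : L[X]) = -4 := by rw [map_neg, map_ofNat]
    rw [h6, h7] at h3
    have h8 : m j = 2 * ev (w 1 j) - ev (w 0 j) := by
      rw [hm]
      simp only [hμ, Pi.sub_apply, Pi.smul_apply, smul_eq_mul, map_sub, map_mul, map_ofNat]
    have h9 : (∑ i, s i) * (ev (w 1 j) - ev (w 0 j)) = 0 := by
      rw [h8] at h3
      have h10 : (3 : L) * (3⁻¹ * ∑ i, s i) = ∑ i, s i := by
        rw [← mul_assoc, mul_inv_cancel₀ (by norm_num), one_mul]
      set σ := ∑ i, s i
      linear_combination (3 / 2 : L) * h3 + (-(1 / 2 : L) * ev (w 0 j) + 2 * ev (w 1 j)) * h10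
    rcases mul_eq_zero.1 h9 with h10 | h10
    · exact absurd h10 hσ
    · have h11 : ev (w 1 j) = ev (w 0 j) := sub_eq_zero.1 h10
      rw [h8, h11]
      constructor <;> ring
  -- all rows are congruent to mu
  have hall : ∀ i j, ev (w i j) = m j := by
    intro i j
    refine Fin.cases ?_ (fun i => ?_) i
    · exact (h01 j).1
    · refine Fin.cases ?_ (fun i => ?_) i
      · exact (h01 j).2
      · exact hmid i j
  -- step 2
  have hdiv : ∀ (i : Fin r) (j : ι), ∃ d : L[X], w i.succ.succ j - μ j = X * d := by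
    intro i j
    have : (X : L[X]) ∣ w i.succ.succ j - μ j := by
      rw [X_dvd_iff]
      have h3 : ev (w i.succ.succ j - μ j) = 0 := by
        rw [map_sub, hmid]
        exact sub_self _
      exact h3
    exact this
  choose d hd using hdiv
  have hd' : ∀ i : Fin r, w i.succ.succ - μ = (X : L[X]) • d i := by
    intro i; funext j
    simp only [Pi.sub_apply, Pi.smul_apply, smul_eq_mul]
    exact hd i j
  have hkey : (C ((r : L) + 1) : L[X]) * bf (fun j k => C (P j k)) μ μ +
      (∑ i, bf (fun j k => C (T j k)) (w i) (w i) -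
        bf (fun j k => C (T j k)) (∑ i, w i) (∑ i, w i)) =
      X * ∑ i : Fin r, C (s i) * bf (fun j k => C (P j k)) (d i) (d i) := by
    have h3 := hQ
    unfold bigQ at h3
    rw [hexp] at h3
    simp only [hd', bf_smul_left, bf_smul_right] at h3
    have h4 : ∑ i : Fin r, C (s i) * (X * (X * bf (fun j k => C (P j k)) (d i) (d i))) =
        X * (X * ∑ i : Fin r, C (s i) * bf (fun j k => C (P j k)) (d i) (d i)) := by
      rw [mul_sum, mul_sum]
      refine sum_congr rfl fun i _ => ?_
      ring
    rw [h4] at h3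
    have h5 : (2 * X : L[X]) * ((C ((r : L) + 1) : L[X]) * bf (fun j k => C (P j k)) μ μ +
      (∑ i, bf (fun j k => C (T j k)) (w i) (w i) -
        bf (fun j k => C (T j k)) (∑ i, w i) (∑ i, w i)) -
      X * ∑ i : Fin r, C (s i) * bf (fun j k => C (P j k)) (d i) (d i)) = 0 := by
      linear_combination -h3
    rcases mul_eq_zero.1 h5 with h6 | h6
    · exfalso
      rcases mul_eq_zero.1 h6 with h7 | h7
      · have : (2 : L[X]) = C 2 := (map_ofNat C 2).symm
        rw [this, C_eq_zero] at h7
        norm_num at h7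
      · exact X_ne_zero h7
    · exact sub_eq_zero.1 h6
  have hlast : m = 0 := by
    apply h2
    · have h6 := congrArg ev hμc
      rw [map_lf, map_zero] at h6
      simp only [hevC] at h6
      exact h6
    · have h3 := congrArg ev hkey
      rw [map_add, map_mul, map_sub, map_sum, map_mul, hevX, zero_mul, hevC, map_bf, map_bf] at h3
      simp only [map_bf, hevC, hall, Finset.sum_apply, map_sum] at h3
      have h4 : (fun j => ev (μ j)) = m := rfl
      rw [h4] at h3
      have h5 : (fun j => ∑ i : Fin (r + 2), m j) = (((r : L) + 2)) • m := by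
        funext j
        simp
      rw [h5, bf_smul_left, bf_smul_right] at h3
      simp only [sum_const, card_univ, Fintype.card_fin, nsmul_eq_mul] at h3
      push_cast at h3
      have h6 : ((r : L) + 1) * (((r : L) + 2) * bf T m m - bf P m m) = 0 := by
        have h3' : ((r : L) + 1) * bf P m m + (((r : L) + 2) * bf T m m -
            ((r : L) + 2) * (((r : L) + 2) * bf T m m)) = 0 := h3
        linear_combination -h3'
      rcases mul_eq_zero.1 h6 with h7 | h7
      · exfalso
        have : ((r + 1 : ℕ) : L) = 0 := by push_cast; exact h7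
        have h8 := Nat.cast_eq_zero.1 this
        omega
      · exact h7
  intro i j
  have h3 := hall i j
  rw [hlast] at h3
  exact h3

end poly

end Pool.Agent.Helper24.DC
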